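import Pool.Agent.W658.States
import Pool.Agent.TH496.EI_Irr

/-!
# Fekete points for families of functionals, and a state dominating the norm on a
finite-dimensional subspace up to a polynomial factor
-/

set_option autoImplicit false

open scoped ComplexOrder

namespace Q89.SE

open Pool.Agent.W658.Irrep

/-- determinant-maximising tuples in a bounded spanning set -/
theorem fek {N : ℕ} (S : Set (Fin N → ℂ)) (hb : ∃ C : ℝ, ∀ v ∈ S, ∀ i, ‖v i‖ ≤ C)
    (hs : Submodule.span ℂ S = ⊤) :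
    ∃ w : Fin N → (Fin N → ℂ), (∀ i, w i ∈ S) ∧ ∀ v ∈ S, ∃ μ : Fin N → ℂ, (∀ i, ‖μ i‖ ≤ 2) ∧
      v = ∑ i, μ i • w i := by
  obtain ⟨C, hC⟩ := hb
  let T : Set ℝ := {t | ∃ w : Fin N → (Fin N → ℂ), (∀ i, w i ∈ S) ∧ t = ‖(Matrix.of w).det‖}
  have hbd : BddAbove T := by
    refine ⟨Nat.factorial (Fintype.card (Fin N)) • C ^ Fintype.card (Fin N), ?_⟩
    rintro t ⟨w, hw, rfl⟩
    exact Matrix.det_le (abv := NormedField.toAbsoluteValue ℂ) fun i j => hC _ (hw i) j
  obtain ⟨w0, hw0, hdet0⟩ : ∃ w : Fin N → (Fin N → ℂ), (∀ i, w i ∈ S) ∧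
      (Matrix.of w).det ≠ 0 := by
    obtain ⟨f, hf1, hf2, hf3⟩ := Submodule.exists_fun_fin_finrank_span_eq ℂ S
    have hN : N = Module.finrank ℂ (Submodule.span ℂ S) := by
      rw [hs]
      simp
    refine ⟨fun i => f (Fin.cast hN i), fun i => hf1 _, ?_⟩
    have hli : LinearIndependent ℂ (fun i => f (Fin.cast hN i)) :=
      hf3.comp _ (Fin.cast_injective hN)
    have := (Matrix.linearIndependent_rows_iff_isUnit (A := Matrix.of fun i => f (Fin.cast hN i))).1 hli
    rw [Matrix.isUnit_iff_isUnit_det] at this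
    exact this.ne_zero
  have hpos : 0 < sSup T :=
    lt_of_lt_of_le (norm_pos_iff.2 hdet0) (le_csSup hbd ⟨w0, hw0, rfl⟩)
  obtain ⟨t, ⟨w, hw, rfl⟩, ht⟩ := exists_lt_of_lt_csSup (⟨_, w0, hw0, rfl⟩ : T.Nonempty)
    (half_lt_self hpos)
  refine ⟨w, hw, fun v hv => ?_⟩
  have hd : (Matrix.of w).det ≠ 0 := by
    intro h0
    rw [h0, norm_zero] at ht
    linarith
  refine ⟨fun i => (Matrix.of w).det⁻¹ * ((Matrix.of w).updateRow i v).det, fun i => ?_, ?_⟩
  · rw [norm_mul, norm_inv]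
    have h1 : ‖((Matrix.of w).updateRow i v).det‖ ≤ sSup T := by
      refine le_csSup hbd ⟨Function.update w i v, fun j => ?_, rfl⟩
      by_cases hj : j = i
      · subst hj
        rw [Function.update_self]
        exact hv
      · rw [Function.update_of_ne hj]
        exact hw j
    have h2 : 0 < ‖(Matrix.of w).det‖ := norm_pos_iff.2 hd
    rw [inv_mul_le_iff₀ h2]
    linarith
  · have h1 := Matrix.mulVec_cramer (Matrix.of w).transpose v
    have h2 : v = (Matrix.of w).det⁻¹ • ((Matrix.of w).transpose.mulVec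
        (Matrix.cramer (Matrix.of w).transpose v)) := by
      rw [h1, Matrix.det_transpose, smul_smul, inv_mul_cancel₀ hd, one_smul]
    conv_lhs => rw [h2]
    ext j
    simp only [Pi.smul_apply, Matrix.mulVec, dotProduct, Matrix.transpose_apply, Matrix.of_apply,
      smul_eq_mul, Finset.mul_sum, Finset.sum_apply, Matrix.cramer_transpose_apply]
    refine Finset.sum_congr rfl fun i _ => ?_
    ring

section states

variable {A : Type} [CStarAlgebra A]

/-- states -/
structure St (f : A → ℂ) : Prop where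
  add : ∀ a b, f (a + b) = f a + f b
  smul : ∀ (c : ℂ) a, f (c • a) = c * f a
  pos : ∀ a, 0 ≤ f (star a * a)
  one : f 1 = 1

theorem St.cs2 {f : A → ℂ} (h : St f) (a b : A) :
    ‖f (star a * b)‖ ^ 2 ≤ (f (star a * a)).re * (f (star b * b)).re := by
  let _ := CStarAlgebra.spectralOrder A
  have _ := CStarAlgebra.spectralOrderedRing A
  let g : A →ₚ[ℂ] ℂ := PositiveLinearMap.mk₀
    ({ toFun := f, map_add' := h.add, map_smul' := fun c a => h.smul c a } : A →ₗ[ℂ] ℂ) (by
      intro x hx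
      obtain ⟨y, rfl⟩ := CStarAlgebra.nonneg_iff_eq_star_mul_self.1 hx
      exact h.pos y)
  have hin : ∀ a b : A, inner ℂ (g.toPreGNS a) (g.toPreGNS b) = f (star a * b) := by
    intro a b
    rw [PositiveLinearMap.preGNS_inner_def]
    rfl
  have hn : ∀ a : A, ‖g.toPreGNS a‖ ^ 2 = (f (star a * a)).re := by
    intro a
    rw [← hin, inner_self_eq_norm_sq_to_K]
    norm_cast
  rw [← hin, ← hn, ← hn, ← mul_pow]
  exact pow_le_pow_left₀ (norm_nonneg _) (norm_inner_le_norm _ _) 2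

theorem St.norm_le {f : A → ℂ} (h : St f) (a : A) : ‖f a‖ ≤ ‖a‖ :=
  norm_bound f h.add h.smul h.pos h.one a

theorem St.sq_le {f : A → ℂ} (h : St f) (a : A) : (f (star a * a)).re ≤ ‖a‖ ^ 2 := by
  refine (Complex.re_le_norm _).trans ((h.norm_le _).trans ?_)
  rw [CStarRing.norm_star_mul_self, sq]

theorem St.re_nonneg {f : A → ℂ} (h : St f) (a : A) : 0 ≤ (f (star a * a)).re :=
  (Complex.le_def.1 (h.pos a)).1

theorem exists_st [Nontrivial A] (c : A) : ∃ f : A → ℂ, St f ∧ ‖c‖ ^ 2 ≤ (f (star c * c)).re := by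
  obtain ⟨f, h1, h2, h3, h4, h5, h6⟩ := Pool.Agent.TH496.EIirr.StY_nonempty c
  exact ⟨f, ⟨h1, h2, h3, h4⟩, h6⟩

/-- linear functionals dominated by a state -/
structure Tt (f : A → ℂ) : Prop where
  add : ∀ a b, f (a + b) = f a + f b
  smul : ∀ (c : ℂ) a, f (c • a) = c * f a
  dom : ∃ φ : A → ℂ, St φ ∧ ∀ c, ‖f c‖ ^ 2 ≤ (φ (star c * c)).re

theorem Tt.norm_le {f : A → ℂ} (h : Tt f) (a : A) : ‖f a‖ ≤ ‖a‖ := by
  obtain ⟨φ, h1, h2⟩ := h.dom
  exact le_of_sq_le_sq ((h2 a).trans (h1.sq_le a)) (norm_nonneg _)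

theorem Tt.map_sum {f : A → ℂ} (h : Tt f) {ι : Type} (s : Finset ι) (c : ι → ℂ) (a : ι → A) :
    f (∑ i ∈ s, c i • a i) = ∑ i ∈ s, c i * f (a i) := by
  let g : A →ₗ[ℂ] ℂ := { toFun := f, map_add' := h.add, map_smul' := fun c a => h.smul c a }
  have : ∀ x, f x = g x := fun x => rfl
  simp only [this, _root_.map_sum, map_smul, smul_eq_mul]

theorem exists_tt [Nontrivial A] (c : A) : ∃ f : A → ℂ, Tt f ∧ ‖c‖ ≤ ‖f c‖ := by
  rcases eq_or_ne c 0 with rfl | hc
  · obtain ⟨φ, h1, -⟩ := exists_st (0 : A)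
    refine ⟨fun _ => 0, ⟨fun a b => (add_zero 0).symm, fun c a => (mul_zero c).symm, φ, h1, fun c => ?_⟩, ?_⟩
    · rw [norm_zero, zero_pow two_ne_zero]
      exact h1.re_nonneg c
    · rw [norm_zero, norm_zero]
  · obtain ⟨φ, h1, h2⟩ := exists_st c
    have hc' : 0 < ‖c‖ := norm_pos_iff.2 hc
    refine ⟨fun x => ((‖c‖⁻¹ : ℝ) : ℂ) * φ (star c * x), ⟨fun a b => ?_, fun r a => ?_, φ, h1,
      fun x => ?_⟩, ?_⟩
    · rw [mul_add, h1.add, mul_add]
    · rw [mul_smul_comm, h1.smul]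
      ring
    · rw [norm_mul, Complex.norm_real, Real.norm_of_nonneg (by positivity), mul_pow, inv_pow,
        inv_mul_le_iff₀ (by positivity)]
      exact (h1.cs2 c x).trans (mul_le_mul_of_nonneg_right (h1.sq_le c) (h1.re_nonneg x))
    · rw [norm_mul, Complex.norm_real, Real.norm_of_nonneg (by positivity), le_inv_mul_iff₀ hc']
      refine le_trans ?_ (h2.trans (Complex.re_le_norm _))
      rw [sq]

theorem dominate [Nontrivial A] (E : Submodule ℂ A) [FiniteDimensional ℂ E]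
    (hE : 0 < Module.finrank ℂ E) :
    ∃ Φ : A → ℂ, St Φ ∧ ∀ c ∈ E,
      ‖c‖ ^ 2 ≤ 4 * (Module.finrank ℂ E : ℝ) ^ 2 * (Φ (star c * c)).re := by
  set N := Module.finrank ℂ E with hN
  let c : Module.Basis (Fin N) ℂ E := Module.finBasis ℂ E
  let S : Set (Fin N → ℂ) := {v | ∃ f : A → ℂ, Tt f ∧ v = fun j => f (c j)}
  obtain ⟨w, hw, hμ⟩ := fek S ⟨∑ j, ‖(c j : A)‖, by
      rintro v ⟨f, hf, rfl⟩ i
      exact (hf.norm_le _).trans
        (Finset.single_le_sum (f := fun j => ‖(c j : A)‖) (fun j _ => norm_nonneg _)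
          (Finset.mem_univ i))⟩ (by
      by_contra hne
      obtain ⟨l, hl0, hl⟩ := Submodule.exists_le_ker_of_lt_top _ (lt_top_iff_ne_top.2 hne)
      apply hl0
      have hx : (∑ j, l (Pi.single j 1) • (c j : A)) = 0 := by
        obtain ⟨f, hf, hf1⟩ := exists_tt (∑ j, l (Pi.single j 1) • (c j : A))
        rw [← norm_le_zero_iff]
        refine hf1.trans ?_
        rw [hf.map_sum]
        have h1 : l (fun j => f (c j)) = 0 := hl (Submodule.subset_span ⟨f, hf, rfl⟩)
        have h2 : l (fun j => f (c j)) = ∑ j, l (Pi.single j 1) * f (c j) := by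
          conv_lhs => rw [pi_eq_sum_univ' (fun j => f (c j))]
          rw [map_sum]
          refine Finset.sum_congr rfl fun j _ => ?_
          rw [map_smul, smul_eq_mul, mul_comm]
        rw [← h2, h1, norm_zero]
      have hx' : (∑ j, l (Pi.single j 1) • c j) = 0 := by
        apply Subtype.ext
        push_cast
        exact hx
      have h3 := Fintype.linearIndependent_iff.1 c.linearIndependent _ hx'
      refine LinearMap.pi_ext' fun i => ?_
      ext
      exact h3 i)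
  choose f hf hwf using hw
  choose φ hφ hd using fun i => (hf i).dom
  have hN0 : (N : ℝ) ≠ 0 := by
    have : N ≠ 0 := hE.ne'
    exact_mod_cast this
  have hN0' : (0 : ℝ) < N := lt_of_le_of_ne (Nat.cast_nonneg _) hN0.symm
  refine ⟨fun x => ((N : ℝ)⁻¹ : ℝ) * ∑ i, φ i x, ⟨fun a b => ?_, fun r a => ?_, fun a => ?_, ?_⟩, ?_⟩
  · simp only [(hφ _).add, Finset.sum_add_distrib, mul_add]
  · simp only [(hφ _).smul, ← Finset.mul_sum]
    ring
  · refine mul_nonneg ?_ (Finset.sum_nonneg fun i _ => (hφ i).pos a)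
    exact_mod_cast inv_nonneg.2 hN0'.le
  · simp only [(hφ _).one, Finset.sum_const, Finset.card_univ, Fintype.card_fin, nsmul_eq_mul,
      mul_one]
    have : (N : ℂ) ≠ 0 := by exact_mod_cast hN0
    push_cast
    exact inv_mul_cancel₀ this
  · intro x hx
    have key : ‖x‖ ≤ 2 * ∑ i, ‖f i x‖ := by
      obtain ⟨g, hg, hgx⟩ := exists_tt x
      obtain ⟨μ, hμ1, hμ2⟩ := hμ _ ⟨g, hg, rfl⟩
      have h1 : ∀ j, g (c j) = ∑ i, μ i * f i (c j) := by
        intro j
        have := congrFun hμ2 j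
        rw [this, Finset.sum_apply]
        refine Finset.sum_congr rfl fun i _ => ?_
        rw [Pi.smul_apply, smul_eq_mul, hwf i]
      have h2 : x = ∑ j, c.repr ⟨x, hx⟩ j • (c j : A) := by
        have := c.sum_repr ⟨x, hx⟩
        have := congrArg (Subtype.val) this
        push_cast at this
        exact this.symm
      have h3 : g x = ∑ i, μ i * f i x := by
        conv_lhs => rw [h2]
        rw [hg.map_sum]
        simp only [h1, Finset.mul_sum]
        rw [Finset.sum_comm]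
        refine Finset.sum_congr rfl fun i _ => ?_
        conv_rhs => rw [h2]
        rw [(hf i).map_sum, Finset.mul_sum]
        refine Finset.sum_congr rfl fun j _ => ?_
        ring
      refine hgx.trans ?_
      rw [h3, Finset.mul_sum]
      refine (norm_sum_le _ _).trans (Finset.sum_le_sum fun i _ => ?_)
      rw [norm_mul]
      exact mul_le_mul_of_nonneg_right (hμ1 i) (norm_nonneg _)
    have h4 : (∑ i, ‖f i x‖) ^ 2 ≤ N * ∑ i, ‖f i x‖ ^ 2 := by
      have := sq_sum_le_card_mul_sum_sq (s := (Finset.univ : Finset (Fin N))) (f := fun i => ‖f i x‖)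
      rwa [Finset.card_univ, Fintype.card_fin] at this
    have h5 : ∑ i, ‖f i x‖ ^ 2 ≤ ∑ i, (φ i (star x * x)).re :=
      Finset.sum_le_sum fun i _ => hd i x
    have h6 : ((((N : ℝ)⁻¹ : ℝ) : ℂ) * ∑ i, φ i (star x * x)).re
        = (N : ℝ)⁻¹ * ∑ i, (φ i (star x * x)).re := by
      rw [Complex.re_ofReal_mul, Complex.re_sum]
    rw [h6]
    have h7 : ‖x‖ ^ 2 ≤ (2 * ∑ i, ‖f i x‖) ^ 2 := pow_le_pow_left₀ (norm_nonneg _) key 2
    refine h7.trans ?_
    rw [mul_pow]
    calc (2 : ℝ) ^ 2 * (∑ i, ‖f i x‖) ^ 2 ≤ 2 ^ 2 * (N * ∑ i, (φ i (star x * x)).re) := by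
          refine mul_le_mul_of_nonneg_left (h4.trans ?_) (by norm_num)
          exact mul_le_mul_of_nonneg_left h5 hN0'.le
      _ = _ := by
          field_simp
          ring

end states

end Q89.SE
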