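import Pool.Agent.Q89.SE.Hat
import Pool.Agent.Q89.SE.Fek

/-!
# Compressions of the GNS representation
-/

set_option autoImplicit false

open scoped InnerProductSpace ComplexOrder CStarAlgebra

noncomputable section

namespace Q89.SE

open Pool.Agent.W658.Cone

/-- matrices as operators -/
def ee (N : ℕ) : CStarMatrix (Fin N) (Fin N) ℂ ≃⋆ₐ[ℂ] (Hs N →L[ℂ] Hs N) :=
  (CStarMatrix.ofMatrixStarAlgEquiv (n := Fin N) (A := ℂ)).symm.trans
    (Matrix.toEuclideanCLM (n := Fin N) (𝕜 := ℂ))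

lemma ee_apply {N : ℕ} (M : CStarMatrix (Fin N) (Fin N) ℂ) (x : Hs N) (p : Fin N) :
    (ee N M x) p = ∑ q, M p q * x q := rfl

lemma ee_symm_apply {N : ℕ} (T : Hs N →L[ℂ] Hs N) (p q : Fin N) :
    (ee N).symm T p q = (T (eb q)) p := by
  obtain ⟨M, hM⟩ : ∃ M, ee N M = T := ⟨(ee N).symm T, (ee N).apply_symm_apply T⟩
  have h1 : (ee N).symm T = M := by
    rw [← hM]
    exact (ee N).symm_apply_apply M
  rw [h1, ← hM, ee_apply, Finset.sum_eq_single q]
  · simp [eb]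
  · intro i _ hi
    simp [eb, hi]
  · intro h
    exact absurd (Finset.mem_univ _) h

/-- star algebra isomorphisms of C*-algebras are contractive -/
lemma norm_le_gen {B C : Type} [NonUnitalCStarAlgebra B] [NonUnitalCStarAlgebra C]
    (e : B →⋆ₙₐ[ℂ] C) (x : B) : ‖e x‖ ≤ ‖x‖ := NonUnitalStarAlgHom.norm_apply_le e x

/-- `ee` as a homomorphism -/
def eeh (N : ℕ) : CStarMatrix (Fin N) (Fin N) ℂ →⋆ₙₐ[ℂ] (Hs N →L[ℂ] Hs N) where
  toFun := ee N
  map_smul' c x := map_smul (ee N) c x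
  map_zero' := map_zero (ee N)
  map_add' x y := map_add (ee N) x y
  map_mul' x y := map_mul (ee N) x y
  map_star' x := map_star (ee N) x

/-- `ee.symm` as a homomorphism -/
def eesh (N : ℕ) : (Hs N →L[ℂ] Hs N) →⋆ₙₐ[ℂ] CStarMatrix (Fin N) (Fin N) ℂ where
  toFun := (ee N).symm
  map_smul' c x := map_smul (ee N).symm c x
  map_zero' := map_zero (ee N).symm
  map_add' x y := map_add (ee N).symm x y
  map_mul' x y := map_mul (ee N).symm x y
  map_star' x := map_star (ee N).symm x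

lemma norm_eeh_le {N : ℕ} (M : CStarMatrix (Fin N) (Fin N) ℂ) : ‖eeh N M‖ ≤ ‖M‖ :=
  norm_le_gen _ _

lemma norm_eesh_le {N : ℕ} (T : Hs N →L[ℂ] Hs N) : ‖eesh N T‖ ≤ ‖T‖ :=
  norm_le_gen _ _

lemma eeh_apply {N : ℕ} (M : CStarMatrix (Fin N) (Fin N) ℂ) (x : Hs N) (p : Fin N) :
    (eeh N M x) p = ∑ q, M p q * x q := rfl

lemma eesh_apply {N : ℕ} (T : Hs N →L[ℂ] Hs N) (p q : Fin N) :
    eesh N T p q = (T (eb q)) p := ee_symm_apply T p q

lemma sq_of_nonneg {X : Type} [NonUnitalCStarAlgebra X] [PartialOrder X] [StarOrderedRing X] {a : X}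
    (h : 0 ≤ a) : ∃ x, a = star x * x := CStarAlgebra.nonneg_iff_eq_star_mul_self.1 h

section cp

variable {B C B' C' : Type} [NonUnitalCStarAlgebra B] [PartialOrder B] [StarOrderedRing B]
  [NonUnitalCStarAlgebra C] [PartialOrder C] [StarOrderedRing C]
  [NonUnitalCStarAlgebra B'] [NonUnitalCStarAlgebra C']

/-- complete positivity in terms of squares -/
lemma cp_gen (f : B →CP C) (e1 : B' →⋆ₙₐ[ℂ] B) (e2 : C →⋆ₙₐ[ℂ] C') (n : ℕ)
    (y : Matrix (Fin n) (Fin n) B') :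
    ∃ z : Matrix (Fin n) (Fin n) C', (y.conjTranspose * y).map (fun b => e2 (f (e1 b)))
      = z.conjTranspose * z := by
  let Y : CStarMatrix (Fin n) (Fin n) B := CStarMatrix.ofMatrix (y.map e1)
  have h := CompletelyPositiveMap.map_cstarMatrix_nonneg f (star Y * Y) (star_mul_self_nonneg Y)
  obtain ⟨w, hw⟩ := sq_of_nonneg h
  refine ⟨Matrix.of fun i j => e2 (w i j), ?_⟩
  ext i j
  have h1 := congrFun (congrFun hw i) j
  rw [CStarMatrix.mul_apply] at h1
  rw [Matrix.map_apply, Matrix.mul_apply, Matrix.mul_apply]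
  have h2 : (star Y * Y) i j = e1 (∑ l, (y.conjTranspose i l) * y l j) := by
    rw [CStarMatrix.mul_apply, map_sum]
    refine Finset.sum_congr rfl fun l _ => ?_
    rw [map_mul, Matrix.conjTranspose_apply, map_star]
    rfl
  rw [← h2]
  have h3 : f ((star Y * Y) i j) = ∑ l, (star w) i l * w l j := h1
  rw [h3, map_sum]
  refine Finset.sum_congr rfl fun l _ => ?_
  rw [map_mul, CStarMatrix.star_apply, map_star]
  rfl

end cp

section data

variable {A : Type} [CStarAlgebra A]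

theorem gns {Φ : A → ℂ} (h : St Φ) : ∃ (K : Type) (_ : NormedAddCommGroup K)
    (_ : InnerProductSpace ℂ K) (_ : CompleteSpace K) (π : A →⋆ₙₐ[ℂ] (K →L[ℂ] K)) (Λ : A →ₗ[ℂ] K),
    (∀ a b, ⟪Λ a, Λ b⟫_ℂ = Φ (star a * b)) ∧ ∀ a b, π a (Λ b) = Λ (a * b) := by
  let _ := CStarAlgebra.spectralOrder A
  have _ := CStarAlgebra.spectralOrderedRing A
  let f : A →ₚ[ℂ] ℂ := PositiveLinearMap.mk₀
    ({ toFun := Φ, map_add' := h.add, map_smul' := fun c a => h.smul c a } : A →ₗ[ℂ] ℂ) (by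
      intro x hx
      obtain ⟨y, rfl⟩ := CStarAlgebra.nonneg_iff_eq_star_mul_self.1 hx
      exact h.pos y)
  refine ⟨f.GNS, inferInstance, inferInstance, inferInstance, f.gnsNonUnitalStarAlgHom,
    { toFun := fun a => (f.toPreGNS a : f.GNS), map_add' := fun a b => ?_, map_smul' := fun c a => ?_ },
    fun a b => ?_, fun a b => ?_⟩
  · rw [map_add, UniformSpace.Completion.coe_add]
  · rw [map_smul, UniformSpace.Completion.coe_smul]
    rfl
  · show ⟪(f.toPreGNS a : f.GNS), (f.toPreGNS b : f.GNS)⟫_ℂ = _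
    rw [UniformSpace.Completion.inner_coe, PositiveLinearMap.preGNS_inner_def]
    rfl
  · show f.gnsNonUnitalStarAlgHom a (f.toPreGNS b : f.GNS) = (f.toPreGNS (a * b) : f.GNS)
    rw [PositiveLinearMap.gnsNonUnitalStarAlgHom_apply_coe]
    rfl

theorem dat (E : Submodule ℂ A) [FiniteDimensional ℂ E] {Φ : A → ℂ} (hΦ : St Φ) (C : ℝ)
    (hC : ∀ c ∈ E, ‖c‖ ^ 2 ≤ C * (Φ (star c * c)).re) :
    ∃ (N : ℕ) (β : Hs N →ₗ[ℂ] A) (φ : A →ₗ[ℂ] (Hs N →L[ℂ] Hs N)), N ≤ Module.finrank ℂ E ∧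
      (∀ x, β x ∈ E) ∧ (∀ c ∈ E, ∃ x, β x = c) ∧
      (∀ x y, ⟪x, y⟫_ℂ = Φ (star (β x) * β y)) ∧
      (∀ x a y, ⟪x, φ a y⟫_ℂ = Φ (star (β x) * a * β y)) ∧ (∀ a, ‖φ a‖ ≤ ‖a‖) ∧
      ∀ (n : ℕ) (y : Matrix (Fin n) (Fin n) A), ∃ z : Matrix (Fin n) (Fin n) (Hs N →L[ℂ] Hs N),
        (y.conjTranspose * y).map φ = z.conjTranspose * z := by
  let _ := CStarAlgebra.spectralOrder A
  have _ := CStarAlgebra.spectralOrderedRing A
  obtain ⟨K, _, _, _, π, Λ, hΛ, hπ⟩ := gns hΦ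
  set E' := E.map Λ with hE'
  let u := stdOrthonormalBasis ℂ E'
  set N := Module.finrank ℂ E' with hN
  have hex : ∀ i : Fin N, ∃ b ∈ E, Λ b = (u i : K) := fun i => by
    obtain ⟨b, hb, hb1⟩ := Submodule.mem_map.1 (u i).2
    exact ⟨b, hb, hb1⟩
  choose b hbE hbu using hex
  have hort : Orthonormal ℂ (fun i => Λ (b i)) := by
    have h1 : Orthonormal ℂ (fun i => (u i : K)) := u.orthonormal.comp_linearIsometry E'.subtypeₗᵢ
    have h2 : (fun i => Λ (b i)) = fun i => (u i : K) := funext hbu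
    rw [h2]
    exact h1
  let β : Hs N →ₗ[ℂ] A :=
    { toFun := fun x => ∑ i, x i • b i
      map_add' := fun x y => by
        simp only [PiLp.add_apply, add_smul, Finset.sum_add_distrib]
      map_smul' := fun c x => by
        simp only [PiLp.smul_apply, smul_eq_mul, mul_smul, Finset.smul_sum, RingHom.id_apply] }
  have hβ : ∀ x, β x = ∑ i, x i • b i := fun x => rfl
  have hβE : ∀ x, β x ∈ E := fun x => by
    rw [hβ]
    exact E.sum_mem fun i _ => E.smul_mem _ (hbE i)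
  let φ : A →ₗ[ℂ] (Hs N →L[ℂ] Hs N) :=
    { toFun := fun a => eeh N (compr π (fun i => Λ (b i)) a)
      map_add' := fun x y => by rw [map_add, map_add]
      map_smul' := fun c x => by rw [map_smul, map_smul, RingHom.id_apply] }
  have hφ : ∀ a, φ a = eeh N (compr π (fun i => Λ (b i)) a) := fun a => rfl
  have hΛβ : ∀ x, Λ (β x) = ∑ i, x i • Λ (b i) := by
    intro x
    rw [hβ, map_sum]
    refine Finset.sum_congr rfl fun i _ => ?_
    rw [map_smul]
  have hin : ∀ x y : Hs N, ⟪x, y⟫_ℂ = ⟪Λ (β x), Λ (β y)⟫_ℂ := by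
    intro x y
    rw [hΛβ, hΛβ, hort.inner_sum, PiLp.inner_apply]
    refine Finset.sum_congr rfl fun i _ => ?_
    rw [RCLike.inner_apply, mul_comm]
  refine ⟨N, β, φ, Submodule.finrank_map_le _ _, hβE, fun c hc => ?_, fun x y => ?_,
    fun x a y => ?_, fun a => ?_, fun n y => ?_⟩
  · have h1 : Λ c ∈ E' := Submodule.mem_map_of_mem hc
    let x : Hs N := u.repr ⟨Λ c, h1⟩
    refine ⟨x, ?_⟩
    have h2 : Λ (β x) = Λ c := by
      rw [hΛβ]
      have := congrArg Subtype.val (u.sum_repr ⟨Λ c, h1⟩)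
      push_cast at this
      simp only [hbu]
      exact this
    have h3 : β x - c ∈ E := E.sub_mem (hβE x) hc
    have h4 := hC _ h3
    rw [← hΛ, map_sub, h2, sub_self, inner_zero_left, Complex.zero_re, mul_zero] at h4
    have h5 : ‖β x - c‖ = 0 := by
      have := sq_nonneg ‖β x - c‖
      exact pow_eq_zero_iff two_ne_zero |>.1 (le_antisymm h4 this)
    exact sub_eq_zero.1 (norm_eq_zero.1 h5)
  · rw [hin, hΛ]
  · rw [mul_assoc, ← hΛ, ← hπ, hΛβ y, hΛβ x, map_sum, sum_inner, PiLp.inner_apply]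
    refine Finset.sum_congr rfl fun i _ => ?_
    rw [hφ, eeh_apply, inner_smul_left, RCLike.inner_apply, mul_comm]
    congr 1
    rw [inner_sum]
    refine Finset.sum_congr rfl fun j _ => ?_
    rw [map_smul, inner_smul_right, mul_comm]
    rfl
  · rw [hφ]
    exact (norm_eeh_le _).trans (norm_compr_le π hort a)
  · exact cp_gen (compr π (fun i => Λ (b i))) (NonUnitalStarAlgHom.id ℂ A) (eeh N) n y

end data

end Q89.SE
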