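import Pool.Agent.Q89.SE.Hat

/-!
# The main estimate
-/

set_option autoImplicit false

open scoped InnerProductSpace ComplexOrder

noncomputable section

namespace Q89.SE

variable {N : ℕ}

lemma op_ineq (f D D' : Hs N →L[ℂ] Hs N) (hD : star D = D) (hD2 : D * D = D)
    (hD' : star D' = D') (hD'2 : D' * D' = D') (c : ℝ) (hc : ‖f‖ ≤ c) :
    D * f * D' + star (D * f * D') ≤ c • (D + D') := by
  rw [ContinuousLinearMap.le_def, ContinuousLinearMap.isPositive_def']
  constructor
  · rw [IsSelfAdjoint]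
    simp only [star_sub, star_add, star_smul, hD, hD', star_star, star_trivial]
    rw [add_comm (star (D * f * D'))]
  · intro x
    have hi : ∀ y z : Hs N, ⟪D y, z⟫_ℂ = ⟪y, D z⟫_ℂ := by
      intro y z
      rw [← ContinuousLinearMap.adjoint_inner_right, ← ContinuousLinearMap.star_eq_adjoint, hD]
    have hi' : ∀ y z : Hs N, ⟪D' y, z⟫_ℂ = ⟪y, D' z⟫_ℂ := by
      intro y z
      rw [← ContinuousLinearMap.adjoint_inner_right, ← ContinuousLinearMap.star_eq_adjoint, hD']
    have hn : Complex.re ⟪D x, x⟫_ℂ = ‖D x‖ ^ 2 := by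
      have h1 : D x = D (D x) := by
        conv_lhs => rw [← hD2]
        rfl
      rw [h1, hi, ← h1, ← inner_self_eq_norm_sq (𝕜 := ℂ)]
      rfl
    have hn' : Complex.re ⟪D' x, x⟫_ℂ = ‖D' x‖ ^ 2 := by
      have h1 : D' x = D' (D' x) := by
        conv_lhs => rw [← hD'2]
        rfl
      rw [h1, hi', ← h1, ← inner_self_eq_norm_sq (𝕜 := ℂ)]
      rfl
    have e1 : Complex.re ⟪(D * f * D') x, x⟫_ℂ = Complex.re ⟪f (D' x), D x⟫_ℂ := by
      show Complex.re ⟪D (f (D' x)), x⟫_ℂ = _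
      rw [hi]
    have e2 : Complex.re ⟪(star (D * f * D')) x, x⟫_ℂ = Complex.re ⟪f (D' x), D x⟫_ℂ := by
      rw [ContinuousLinearMap.star_eq_adjoint, ContinuousLinearMap.adjoint_inner_left,
        ← e1, ← inner_conj_symm]
      exact Complex.conj_re _
    have e3 : Complex.re ⟪f (D' x), D x⟫_ℂ ≤ c * (‖D' x‖ * ‖D x‖) := by
      refine (Complex.re_le_norm _).trans ((norm_inner_le_norm _ _).trans ?_)
      rw [← mul_assoc]
      refine mul_le_mul_of_nonneg_right ?_ (norm_nonneg _)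
      exact (f.le_opNorm _).trans (mul_le_mul_of_nonneg_right hc (norm_nonneg _))
    have hc0 : 0 ≤ c := (norm_nonneg _).trans hc
    have e4 : (c • (D + D') - (D * f * D' + star (D * f * D'))).reApplyInnerSelf x
        = c * (‖D x‖ ^ 2 + ‖D' x‖ ^ 2) - 2 * Complex.re ⟪f (D' x), D x⟫_ℂ := by
      rw [ContinuousLinearMap.reApplyInnerSelf_apply]
      have : (c • (D + D') - (D * f * D' + star (D * f * D'))) x
          = (c : ℂ) • (D x + D' x) - ((D * f * D') x + (star (D * f * D')) x) := rfl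
      rw [this, inner_sub_left, inner_smul_left, inner_add_left, inner_add_left]
      simp only [Complex.conj_ofReal, RCLike.re_to_complex, Complex.sub_re, Complex.re_ofReal_mul,
        Complex.add_re]
      rw [hn, hn', e1, e2]
      ring
    rw [e4]
    nlinarith [mul_nonneg hc0 (sq_nonneg (‖D x‖ - ‖D' x‖))]

lemma neg_id {R : Type} [Ring R] [StarRing R] (D f D' : R) :
    D * (-f) * D' + star (D * (-f) * D') = -(D * f * D' + star (D * f * D')) := by
  rw [mul_neg, neg_mul, star_neg]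
  abel

lemma op_ineq' (f D D' : Hs N →L[ℂ] Hs N) (hD : star D = D) (hD2 : D * D = D)
    (hD' : star D' = D') (hD'2 : D' * D' = D') (c : ℝ) (hc : ‖f‖ ≤ c) :
    -(D * f * D' + star (D * f * D')) ≤ c • (D + D') := by
  have := op_ineq (-f) D D' hD hD2 hD' hD'2 c (by rwa [norm_neg])
  have e : D * (-f) * D' + star (D * (-f) * D') = -(D * f * D' + star (D * f * D')) :=
    neg_id D f D'
  rwa [e] at this

lemma comm_id {R : Type} [Ring R] {f P0 P1 P2 : R} (h1 : P2 * (f * P1) = f * P1)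
    (h2 : P1 * (f * P0) = f * P0) (h3 : P2 * P1 = P1) :
    (1 - P1) * f * P1 = (P2 - P1) * f * (P1 - P0) := by
  have h4 : P2 * (f * P0) = f * P0 := by
    rw [← h2, ← mul_assoc, h3]
  have : (P2 - P1) * f * (P1 - P0) = P2 * (f * P1) - P2 * (f * P0) - P1 * f * P1 + P1 * (f * P0) := by
    noncomm_ring
  rw [this, h1, h2, h4]
  noncomm_ring

section

variable (U : ℕ → Submodule ℂ (Hs N))

/-- the projections -/
def Pj (n : ℕ) : Hs N →L[ℂ] Hs N := (U n).starProjection

lemma Pj_star (n : ℕ) : star (Pj U n) = Pj U n := isSelfAdjoint_starProjection (U n)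

lemma Pj_idem (n : ℕ) : Pj U n * Pj U n = Pj U n := (U n).isIdempotentElem_starProjection

lemma Pj_mul {m n : ℕ} (h : U m ≤ U n) : Pj U n * Pj U m = Pj U m := by
  ext1 x
  show (U n).starProjection ((U m).starProjection x) = (U m).starProjection x
  exact Submodule.starProjection_eq_self_iff.2 (h ((U m).starProjection_apply_mem x))

lemma Pj_mul' {m n : ℕ} (h : U m ≤ U n) : Pj U m * Pj U n = Pj U m := by
  have := congrArg star (Pj_mul U h)
  rwa [star_mul, Pj_star, Pj_star] at this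

lemma Pj_diff_idem {m n : ℕ} (h : U m ≤ U n) :
    (Pj U n - Pj U m) * (Pj U n - Pj U m) = Pj U n - Pj U m := by
  rw [mul_sub, sub_mul, sub_mul, Pj_idem, Pj_idem, Pj_mul U h, Pj_mul' U h]
  abel

lemma Pj_diff_star (m n : ℕ) : star (Pj U n - Pj U m) = Pj U n - Pj U m :=
  (isSelfAdjoint_starProjection (U n)).sub (isSelfAdjoint_starProjection (U m))

lemma Pj_mono {m n : ℕ} (h : U m ≤ U n) : Pj U m ≤ Pj U n :=
  Submodule.starProjection_le_starProjection_iff.2 h

lemma Pj_zero (h : U 0 = ⊥) : Pj U 0 = 0 := by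
  ext1 x
  have := (U 0).starProjection_apply_mem x
  have h2 : (U 0).starProjection x ∈ (⊥ : Submodule ℂ (Hs N)) := h ▸ this
  exact (Submodule.mem_bot ℂ).1 h2

end

lemma tele {A : Type} [AddCommGroup A] [Module ℝ A] (h : ℕ → A) (h0 : h 0 = 0) (r : ℝ) (L : ℕ) :
    r • ∑ n ∈ Finset.range L, r ^ n • (h (n + 2) - h n)
      = (1 - r ^ 2) • ∑ n ∈ Finset.range L, r ^ n • h (n + 1) - h 1 + r ^ L • h (L + 1)
        + r ^ (L + 1) • h L := by
  induction L with
  | zero =>
    rw [Finset.sum_range_zero, Finset.sum_range_zero, h0]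
    simp
  | succ L ih =>
    rw [Finset.sum_range_succ, Finset.sum_range_succ, smul_add, ih]
    module

section main

variable {A : Type} [CStarAlgebra A]
variable (β : Hs N →ₗ[ℂ] A) (U : ℕ → Submodule ℂ (Hs N))

/-- the elements `h_n` -/
def hh (n : ℕ) : A := hat β (Pj U n)

/-- the weight -/
def HH (r : ℝ) (L : ℕ) : A := ∑ n ∈ Finset.range L, r ^ n • hh β U (n + 1)

lemma lin_id {R : Type} [Ring R] [Module ℂ R] [IsScalarTower ℂ R R] [SMulCommClass ℂ R R]
    (P Q S T : R) (c : ℂ) :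
    P * (S + T) * Q = P * S * Q + P * T * Q ∧ P * (c • S) * Q = c • (P * S * Q) := by
  constructor
  · rw [mul_add, add_mul]
  · rw [mul_smul_comm, smul_mul_assoc]

/-- the map `Θ` -/
def Th (r : ℝ) (L : ℕ) : (Hs N →L[ℂ] Hs N) →ₗ[ℂ] A where
  toFun T := ∑ n ∈ Finset.range L, r ^ n • hat β (Pj U (n + 1) * T * star (Pj U (n + 1)))
  map_add' S T := by
    rw [← Finset.sum_add_distrib]
    refine Finset.sum_congr rfl fun n _ => ?_
    rw [(lin_id (Pj U (n + 1)) (star (Pj U (n + 1))) S T 0).1, map_add, smul_add]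
  map_smul' c T := by
    rw [RingHom.id_apply, Finset.smul_sum]
    refine Finset.sum_congr rfl fun n _ => ?_
    rw [(lin_id (Pj U (n + 1)) (star (Pj U (n + 1))) T T c).2, map_smul, smul_comm]

lemma Th_apply (r : ℝ) (L : ℕ) (T : Hs N →L[ℂ] Hs N) : Th β U r L T
    = ∑ n ∈ Finset.range L, r ^ n • hat β (Pj U (n + 1) * T * star (Pj U (n + 1))) := rfl

lemma Th_one (r : ℝ) (L : ℕ) : Th β U r L 1 = HH β U r L := by
  rw [Th_apply, HH]
  refine Finset.sum_congr rfl fun n _ => ?_
  rw [mul_one, Pj_star, Pj_idem, hh]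

lemma hh_star (n : ℕ) : star (hh β U n) = hh β U n := by
  rw [hh, star_hat, Pj_star]

lemma HH_star (r : ℝ) (L : ℕ) : star (HH β U r L) = HH β U r L := by
  rw [HH, star_sum]
  refine Finset.sum_congr rfl fun n _ => ?_
  rw [star_smul, hh_star, star_trivial]

lemma ring_id {R : Type} [Ring R] [StarRing R] (P f : R) (hP : star P = P) (hf : star f = f) :
    P * f + f * P = (((1 - P) * f * P) + star ((1 - P) * f * P)) + (P * f * star P + P * f * star P) := by
  simp only [star_mul, star_sub, star_one, hP, hf]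
  noncomm_ring

variable [PartialOrder A] [StarOrderedRing A]

lemma hh_mono {m n : ℕ} (h : U m ≤ U n) : hh β U m ≤ hh β U n :=
  hat_mono β (Pj_mono U h)

lemma hh_nonneg (n : ℕ) : 0 ≤ hh β U n := by
  have h1 : hh β U n = hat β (Pj U n * star (Pj U n)) := by
    rw [Pj_star, Pj_idem, hh]
  rw [h1, hat_mul_star]
  exact Finset.sum_nonneg fun q _ => mul_star_self_nonneg _

lemma one_sub_id {R : Type} [Ring R] [StarRing R] (P : R) (hP : star P = P) (hP2 : P * P = P) :
    (1 - P) * star (1 - P) = 1 - P := by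
  have h : (1 - P) * (1 - P) = 1 - P - (P - P * P) := by noncomm_ring
  rw [star_sub, star_one, hP, h, hP2]
  abel

lemma hh_le (n : ℕ) : hh β U n ≤ hat β 1 := by
  rw [← sub_nonneg, hh, ← map_sub, ← one_sub_id _ (Pj_star U n) (Pj_idem U n), hat_mul_star]
  exact Finset.sum_nonneg fun q _ => mul_star_self_nonneg _

theorem est (hU0 : U 0 = ⊥) (hUm : Monotone U) (L : ℕ) (f : Hs N →L[ℂ] Hs N) (hf : star f = f)
    (a : A) (ha : star a = a) (h1 : ∀ n ≤ L, ∀ x ∈ U n, f x ∈ U (n + 1))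
    (h2 : ∀ n ≤ L, ∀ x ∈ U n, β (f x) = a * β x) (c : ℝ) (hc : ‖f‖ ≤ c) (r : ℝ) (hr0 : 0 < r)
    (hr1 : r ≤ 1) :
    r • ((2 : ℝ)⁻¹ • (HH β U r L * a + a * HH β U r L) - Th β U r L f)
      ≤ (c / 2) • ((1 - r ^ 2) • HH β U r L + (2 * r ^ L) • hat β 1) ∧
    -(r • ((2 : ℝ)⁻¹ • (HH β U r L * a + a * HH β U r L) - Th β U r L f))
      ≤ (c / 2) • ((1 - r ^ 2) • HH β U r L + (2 * r ^ L) • hat β 1) := by
  have hc0 : 0 ≤ c := (norm_nonneg _).trans hc
  -- multiplication by `a`
  have k1 : ∀ n ≤ L, a * hh β U n = hat β (f * Pj U n) := by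
    intro n hn
    rw [hh, hat_apply, hat_apply, Finset.mul_sum]
    refine Finset.sum_congr rfl fun q _ => ?_
    have : Pj U n (eb q) ∈ U n := (U n).starProjection_apply_mem _
    rw [mul_apply_eq_comp, h2 n hn _ this, mul_assoc]
  have k2 : ∀ n ≤ L, hh β U n * a = hat β (Pj U n * f) := by
    intro n hn
    have := congrArg star (k1 n hn)
    rw [star_mul, hh_star, ha, star_hat, star_mul, Pj_star, hf] at this
    exact this
  set Y : ℕ → (Hs N →L[ℂ] Hs N) := fun n =>
    ((1 - Pj U (n + 1)) * f * Pj U (n + 1)) + star ((1 - Pj U (n + 1)) * f * Pj U (n + 1)) with hY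
  have k3 : (2 : ℝ)⁻¹ • (HH β U r L * a + a * HH β U r L) - Th β U r L f
      = (2 : ℝ)⁻¹ • ∑ n ∈ Finset.range L, r ^ n • hat β (Y n) := by
    rw [HH, Th_apply, Finset.sum_mul, Finset.mul_sum, ← Finset.sum_add_distrib, Finset.smul_sum,
      Finset.smul_sum, ← Finset.sum_sub_distrib]
    refine Finset.sum_congr rfl fun n hn => ?_
    have hn' : n + 1 ≤ L := Finset.mem_range.1 hn
    have e1 : hat β (Pj U (n + 1) * f + f * Pj U (n + 1)) = hat β (Y n) +
        (hat β (Pj U (n + 1) * f * star (Pj U (n + 1)))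
          + hat β (Pj U (n + 1) * f * star (Pj U (n + 1)))) := by
      rw [ring_id (Pj U (n + 1)) f (Pj_star U _) hf, map_add, map_add (hat β) (_ * _ * star _)]
    rw [smul_mul_assoc, mul_smul_comm, ← smul_add, k1 _ hn', k2 _ hn', ← map_add, e1]
    module
  -- the invariance relations
  have k4 : ∀ n ≤ L, Pj U (n + 1) * (f * Pj U n) = f * Pj U n := by
    intro n hn
    ext1 x
    show (U (n + 1)).starProjection (f (Pj U n x)) = f (Pj U n x)
    exact Submodule.starProjection_eq_self_iff.2 (h1 n hn _ ((U n).starProjection_apply_mem _))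
  have k5 : ∀ n < L, (1 - Pj U (n + 1)) * f * Pj U (n + 1)
      = (Pj U (n + 2) - Pj U (n + 1)) * f * (Pj U (n + 1) - Pj U n) := fun n hn =>
    comm_id (k4 (n + 1) hn) (k4 n hn.le) (Pj_mul U (hUm (Nat.le_succ _)))
  have k6 : ∀ n, Pj U (n + 2) - Pj U (n + 1) + (Pj U (n + 1) - Pj U n) = Pj U (n + 2) - Pj U n :=
    fun n => sub_add_sub_cancel _ _ _
  have hsm : ∀ T : Hs N →L[ℂ] Hs N, hat β (c • T) = c • hat β T := by
    intro T
    have : (c • T) = (c : ℂ) • T := rfl
    rw [this, map_smul]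
    exact Complex.coe_smul c _
  have k7 : ∀ n < L, hat β (Y n) ≤ c • (hh β U (n + 2) - hh β U n) := by
    intro n hn
    have := op_ineq f _ _ (Pj_diff_star U (n + 1) (n + 2)) (Pj_diff_idem U (hUm (Nat.le_succ _)))
      (Pj_diff_star U n (n + 1)) (Pj_diff_idem U (hUm (Nat.le_succ _))) c hc
    rw [k6, ← k5 n hn] at this
    have := hat_mono β this
    rw [hsm, map_sub] at this
    exact this
  have k8 : ∀ n < L, -hat β (Y n) ≤ c • (hh β U (n + 2) - hh β U n) := by
    intro n hn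
    have := op_ineq' f _ _ (Pj_diff_star U (n + 1) (n + 2)) (Pj_diff_idem U (hUm (Nat.le_succ _)))
      (Pj_diff_star U n (n + 1)) (Pj_diff_idem U (hUm (Nat.le_succ _))) c hc
    rw [k6, ← k5 n hn] at this
    have := hat_mono β this
    rw [hsm, map_sub, map_neg] at this
    exact this
  have h0 : hh β U 0 = 0 := by
    rw [hh, Pj_zero U hU0, map_zero]
  have k9 : r • ((2 : ℝ)⁻¹ • ∑ n ∈ Finset.range L, r ^ n • (c • (hh β U (n + 2) - hh β U n)))
      ≤ (c / 2) • ((1 - r ^ 2) • HH β U r L + (2 * r ^ L) • hat β 1) := by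
    have e1 : r • ((2 : ℝ)⁻¹ • ∑ n ∈ Finset.range L, r ^ n • (c • (hh β U (n + 2) - hh β U n)))
        = (c / 2) • (r • ∑ n ∈ Finset.range L, r ^ n • (hh β U (n + 2) - hh β U n)) := by
      simp only [Finset.smul_sum]
      refine Finset.sum_congr rfl fun n _ => ?_
      module
    rw [e1, tele _ h0]
    refine smul_le_smul_of_nonneg_left ?_ (by positivity)
    have e2 : (1 - r ^ 2) • HH β U r L + (2 * r ^ L) • hat β 1
        = (1 - r ^ 2) • HH β U r L + r ^ L • hat β 1 + r ^ L • hat β 1 := by module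
    rw [e2]
    refine add_le_add (add_le_add ?_ ?_) ?_
    · exact sub_le_self _ (hh_nonneg β U 1)
    · exact smul_le_smul_of_nonneg_left (hh_le β U _) (by positivity)
    · refine (smul_le_smul_of_nonneg_left (hh_le β U _) (by positivity)).trans ?_
      refine smul_le_smul_of_nonneg_right ?_ ((hh_nonneg β U 0).trans (hh_le β U 0))
      exact pow_le_pow_of_le_one hr0.le hr1 (Nat.le_succ _)
  rw [k3]
  refine ⟨le_trans ?_ k9, le_trans ?_ k9⟩
  · refine smul_le_smul_of_nonneg_left (smul_le_smul_of_nonneg_left ?_ (by norm_num)) hr0.le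
    exact Finset.sum_le_sum fun n hn =>
      smul_le_smul_of_nonneg_left (k7 n (Finset.mem_range.1 hn)) (by positivity)
  · rw [← smul_neg, ← smul_neg, ← Finset.sum_neg_distrib]
    refine smul_le_smul_of_nonneg_left (smul_le_smul_of_nonneg_left ?_ (by norm_num)) hr0.le
    refine Finset.sum_le_sum fun n hn => ?_
    rw [← smul_neg]
    exact smul_le_smul_of_nonneg_left (k8 n (Finset.mem_range.1 hn)) (by positivity)

end main

end Q89.SE
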