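import Pool.Agent.Q89.SE.Step

/-!
# Growth and the final approximation
-/

set_option autoImplicit false

open Filter

namespace Q89.SE

lemma exists_s {κ : ℝ} (hκ : 0 < κ) : ∃ s : ℝ, 0 < s ∧ s < 1 ∧
    (1 - (s ^ 2) ^ 2) / (2 * s ^ 2) ≤ κ := by
  have h1 : ContinuousAt (fun s : ℝ => (1 - (s ^ 2) ^ 2) / (2 * s ^ 2)) 1 := by
    refine ContinuousAt.div (by fun_prop) (by fun_prop) (by norm_num)
  have h2 : ∀ᶠ s : ℝ in nhds 1, (1 - (s ^ 2) ^ 2) / (2 * s ^ 2) < κ := by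
    refine h1.eventually_lt_const ?_
    norm_num
    exact hκ
  have h3 : ∀ᶠ s : ℝ in nhds 1, 0 < s := eventually_gt_nhds one_pos
  have h4 : ∀ᶠ s : ℝ in nhdsWithin 1 (Set.Iio 1), (1 - (s ^ 2) ^ 2) / (2 * s ^ 2) < κ ∧ 0 < s ∧ s < 1 :=
    (h2.filter_mono nhdsWithin_le_nhds).and ((h3.filter_mono nhdsWithin_le_nhds).and
      self_mem_nhdsWithin)
  obtain ⟨s, hs1, hs2, hs3⟩ := h4.exists
  exact ⟨s, hs2, hs3, hs1.le⟩

lemma growth (d : ℕ → ℕ)
    (hlim : Tendsto (fun n : ℕ => ((d n : ℕ) : ℝ) ^ (1 / (n : ℝ))) atTop (nhds 1))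
    (K : ℕ) (hK : 0 < K) (r : ℝ) (hr0 : 0 < r) (hr1 : r < 1) {κ : ℝ} (hκ : 0 < κ) :
    ∃ L : ℕ, 0 < L ∧ 4 * (d (K * L) : ℝ) ^ 3 * r ^ L / r ≤ κ := by
  obtain ⟨θ, hθ1, hθ2⟩ : ∃ θ : ℝ, 1 < θ ∧ θ ^ (3 * K) * r < 1 := by
    have h1 : ContinuousAt (fun θ : ℝ => θ ^ (3 * K) * r) 1 := by fun_prop
    have h2 : ∀ᶠ θ : ℝ in nhds 1, θ ^ (3 * K) * r < 1 := by
      refine h1.eventually_lt_const ?_
      show (1 : ℝ) ^ (3 * K) * r < 1
      rw [one_pow, one_mul]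
      exact hr1
    have h4 : ∀ᶠ θ : ℝ in nhdsWithin 1 (Set.Ioi 1), θ ^ (3 * K) * r < 1 ∧ 1 < θ :=
      (h2.filter_mono nhdsWithin_le_nhds).and self_mem_nhdsWithin
    obtain ⟨θ, h5, h6⟩ := h4.exists
    exact ⟨θ, h6, h5⟩
  have h1 : ∀ᶠ n : ℕ in atTop, ((d n : ℕ) : ℝ) ^ (1 / (n : ℝ)) < θ :=
    hlim.eventually_lt_const hθ1
  have h2 : ∀ᶠ n : ℕ in atTop, (d n : ℝ) ≤ θ ^ n := by
    filter_upwards [h1, eventually_gt_atTop 0] with n hn hn0
    have e : (((d n : ℕ) : ℝ) ^ (1 / (n : ℝ))) ^ n = d n := by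
      rw [one_div, Real.rpow_inv_natCast_pow (Nat.cast_nonneg _) hn0.ne']
    rw [← e]
    exact pow_le_pow_left₀ (Real.rpow_nonneg (Nat.cast_nonneg _) _) hn.le n
  have h3 : Tendsto (fun L : ℕ => K * L) atTop atTop := tendsto_id.const_mul_atTop' hK
  have h4 : ∀ᶠ L : ℕ in atTop, (d (K * L) : ℝ) ≤ θ ^ (K * L) := h3.eventually h2
  set q := θ ^ (3 * K) * r with hq
  have hq0 : 0 ≤ q := by positivity
  have h5 : Tendsto (fun L : ℕ => 4 * q ^ L / r) atTop (nhds (4 * 0 / r)) :=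
    ((tendsto_pow_atTop_nhds_zero_of_lt_one hq0 hθ2).const_mul 4).div_const r
  rw [mul_zero, zero_div] at h5
  have h6 := h5.eventually_lt_const hκ
  obtain ⟨L, ha, hb, hc⟩ := (h4.and (h6.and (eventually_gt_atTop 0))).exists
  refine ⟨L, hc, le_trans ?_ hb.le⟩
  have e : q ^ L = (θ ^ (K * L)) ^ 3 * r ^ L := by
    rw [hq, mul_pow, ← pow_mul, ← pow_mul]
    congr 2
    ring
  rw [e, ← mul_assoc]
  gcongr

variable {A : Type} [CStarAlgebra A]

theorem main [Nontrivial A] (F : ℕ → Submodule ℂ A) (hF : Monotone F)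
    (hF0 : F 0 = Submodule.span ℂ {(1 : A)})
    (hmul : ∀ m n : ℕ, ∀ x ∈ F m, ∀ y ∈ F n, x * y ∈ F (m + n))
    (hstar : ∀ n : ℕ, ∀ x ∈ F n, star x ∈ F n)
    (hdense : Dense (⋃ n : ℕ, (F n : Set A)))
    (hfd : ∀ n : ℕ, FiniteDimensional ℂ (F n))
    (hlim : Tendsto (fun n : ℕ => ((Module.finrank ℂ (F n) : ℕ) : ℝ) ^ (1 / (n : ℝ)))
      atTop (nhds 1)) (S : Finset A) (ε : ℝ) (hε : 0 < ε) :
    ∃ (N : ℕ) (φ : A →ₗ[ℂ] (Hs N →L[ℂ] Hs N)) (ψ : (Hs N →L[ℂ] Hs N) →ₗ[ℂ] A),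
      (∀ (n : ℕ) (y : Matrix (Fin n) (Fin n) A), ∃ z : Matrix (Fin n) (Fin n) (Hs N →L[ℂ] Hs N),
        (y.conjTranspose * y).map φ = z.conjTranspose * z) ∧
      (∀ (n : ℕ) (y : Matrix (Fin n) (Fin n) (Hs N →L[ℂ] Hs N)), ∃ z : Matrix (Fin n) (Fin n) A,
        (y.conjTranspose * y).map ψ = z.conjTranspose * z) ∧
      (∀ a, ‖φ a‖ ≤ ‖a‖) ∧ (∀ b, ‖ψ b‖ ≤ ‖b‖) ∧ ∀ a ∈ S, ‖ψ (φ a) - a‖ < ε := by
  let _ := CStarAlgebra.spectralOrder A
  have _ := CStarAlgebra.spectralOrderedRing A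
  -- approximation of `S`
  have happ : ∀ a : A, ∃ n : ℕ, ∃ b ∈ F n, ‖a - b‖ < ε / 4 := by
    intro a
    obtain ⟨b, hb, hab⟩ := hdense.exists_dist_lt a (show 0 < ε / 4 by positivity)
    obtain ⟨n, hn⟩ := Set.mem_iUnion.1 hb
    exact ⟨n, b, hn, by rwa [dist_eq_norm] at hab⟩
  choose ν b hbF hb using happ
  set K := S.sup ν + 1 with hK
  have hK0 : 0 < K := Nat.succ_pos _
  have hbK : ∀ a ∈ S, b a ∈ F K := fun a ha =>
    hF ((Finset.le_sup ha).trans (Nat.le_succ _)) (hbF a)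
  set B : ℝ := ∑ a ∈ S, ‖b a‖ + 1 with hB
  have hB0 : 0 < B := by positivity
  have hbB : ∀ a ∈ S, ‖b a‖ ≤ B := fun a ha => by
    have := Finset.single_le_sum (f := fun a => ‖b a‖) (fun _ _ => norm_nonneg _) ha
    linarith
  set κ : ℝ := ε / (8 * B) with hκ
  have hκ0 : 0 < κ := by positivity
  obtain ⟨s, hs0, hs1, hs⟩ := exists_s (show 0 < κ / 3 by positivity)
  obtain ⟨L, hL, hL1⟩ := growth (fun n => Module.finrank ℂ (F n)) hlim K hK0 (s ^ 2) (by positivity)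
    (pow_lt_one₀ hs0.le hs1 two_ne_zero) (show 0 < κ / 3 by positivity)
  let G : ℕ → Submodule ℂ A := fun n => F (K * n)
  have hG : Monotone G := fun m n h => hF (Nat.mul_le_mul_left K h)
  obtain ⟨N, φ, ψ, h1, h2, h3, h4, h5⟩ := step G hG
    (by show (1 : A) ∈ F (K * 0); rw [mul_zero, hF0]; exact Submodule.mem_span_singleton_self _)
    (fun m n x hx y hy => by
      show x * y ∈ F (K * (m + n))
      rw [mul_add]
      exact hmul _ _ x hx y hy) L hL (hfd _) s hs0 hs1.le (κ / 3) (by positivity)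
  refine ⟨N, φ, ψ, h1, h2, h3, h4, fun a ha => ?_⟩
  have key : ∀ x ∈ F K, star x = x → ‖x‖ ≤ B → ‖ψ (φ x) - x‖ ≤ B * κ := by
    intro x hx hsx hxB
    refine (h5 x (by show x ∈ F (K * 1); rwa [mul_one]) hsx).trans ?_
    refine mul_le_mul hxB ?_ (by
      have : 0 ≤ 1 - (s ^ 2) ^ 2 := by
        have : (s ^ 2) ^ 2 ≤ 1 := pow_le_one₀ (by positivity) (pow_le_one₀ hs0.le hs1.le)
        linarith
      positivity) hB0.le
    have : 4 * (Module.finrank ℂ (G L) : ℝ) ^ 3 * (s ^ 2) ^ L / s ^ 2 ≤ κ / 3 := hL1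
    linarith
  -- decomposition into self-adjoint parts
  set c := b a with hc
  have hcF : c ∈ F K := hbK a ha
  set x : A := (2 : ℂ)⁻¹ • (c + star c) with hx
  set y : A := (2 : ℂ)⁻¹ • (Complex.I • (star c - c)) with hy
  have hxF : x ∈ F K := (F K).smul_mem _ ((F K).add_mem hcF (hstar _ _ hcF))
  have hyF : y ∈ F K := (F K).smul_mem _ ((F K).smul_mem _ ((F K).sub_mem (hstar _ _ hcF) hcF))
  have hs2 : star (2 : ℂ)⁻¹ = (2 : ℂ)⁻¹ := by simp
  have hxs : star x = x := by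
    rw [hx, star_smul, star_add, star_star, hs2, add_comm]
  have hys : star y = y := by
    rw [hy, star_smul, star_smul, star_sub, star_star, hs2]
    have : star Complex.I = -Complex.I := by simp
    rw [this, neg_smul, ← smul_neg, neg_sub]
  have hcxy : c = x + Complex.I • y := by
    have e : Complex.I • y = (-(2 : ℂ)⁻¹) • (star c - c) := by
      rw [hy, smul_smul, smul_smul]
      congr 1
      linear_combination (2 : ℂ)⁻¹ * Complex.I_mul_I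
    rw [e, hx]
    module
  have hxB : ‖x‖ ≤ B := by
    rw [hx, norm_smul]
    have h6 := norm_add_le c (star c)
    rw [norm_star] at h6
    have h7 := hbB a ha
    have h8 : ‖(2 : ℂ)⁻¹‖ = 2⁻¹ := by simp
    rw [h8]
    linarith
  have hyB : ‖y‖ ≤ B := by
    rw [hy, norm_smul, norm_smul, Complex.norm_I, one_mul]
    have h6 := norm_sub_le (star c) c
    rw [norm_star] at h6
    have h7 := hbB a ha
    have h8 : ‖(2 : ℂ)⁻¹‖ = 2⁻¹ := by simp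
    rw [h8]
    linarith
  have k1 := key x hxF hxs hxB
  have k2 := key y hyF hys hyB
  have k3 : ‖ψ (φ c) - c‖ ≤ B * κ + B * κ := by
    have e : ψ (φ c) - c = (ψ (φ x) - x) + Complex.I • (ψ (φ y) - y) := by
      have e1 : ψ (φ (x + Complex.I • y)) = ψ (φ x) + Complex.I • ψ (φ y) := by
        rw [map_add, map_add, map_smul φ Complex.I y, map_smul ψ]
      conv_lhs => rw [hcxy]
      rw [e1, smul_sub]
      abel
    rw [e]
    refine (norm_add_le _ _).trans (add_le_add k1 ?_)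
    rw [norm_smul, Complex.norm_I, one_mul]
    exact k2
  have k4 : ‖ψ (φ (a - c))‖ ≤ ε / 4 := (h4 _).trans ((h3 _).trans (hb a).le)
  have k5 : ψ (φ a) - a = ψ (φ (a - c)) + (ψ (φ c) - c) - (a - c) := by
    rw [map_sub, map_sub]
    abel
  rw [k5]
  have k6 : B * κ = ε / 8 := by
    rw [hκ]
    field_simp
  calc ‖ψ (φ (a - c)) + (ψ (φ c) - c) - (a - c)‖
      ≤ ‖ψ (φ (a - c))‖ + ‖ψ (φ c) - c‖ + ‖a - c‖ :=
        (norm_sub_le _ _).trans (add_le_add_left (norm_add_le _ _) _)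
    _ < ε := by
        have := hb a
        linarith

end Q89.SE
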