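import Mathlib
import Pool.Agent.W658.CPTools

/-!
# The map `T ↦ ∑ β(T e_q) β(e_q)^*`
-/

set_option autoImplicit false

open scoped InnerProductSpace ComplexOrder

noncomputable section

namespace Q89.SE

variable {A : Type} [CStarAlgebra A]

/-- the standard Hilbert space -/
abbrev Hs (N : ℕ) := EuclideanSpace ℂ (Fin N)

/-- the standard basis -/
def eb {N : ℕ} (i : Fin N) : Hs N := EuclideanSpace.single i 1

variable {N : ℕ}

lemma inner_eb_left (i : Fin N) (x : Hs N) : ⟪eb i, x⟫_ℂ = x i := by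
  rw [eb, EuclideanSpace.inner_single_left, map_one, one_mul]

lemma inner_eb_right (i : Fin N) (x : Hs N) : ⟪x, eb i⟫_ℂ = star (x i) := by
  rw [eb, EuclideanSpace.inner_single_right, one_mul]
  rfl

lemma expand (x : Hs N) : x = ∑ i, x i • eb i := by
  have h := (EuclideanSpace.basisFun (Fin N) ℂ).sum_repr x
  conv_lhs => rw [← h]
  refine Finset.sum_congr rfl fun i _ => ?_
  simp [eb]

lemma map_expand (β : Hs N →ₗ[ℂ] A) (x : Hs N) : β x = ∑ i, x i • β (eb i) := by
  conv_lhs => rw [expand x]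
  rw [map_sum]
  refine Finset.sum_congr rfl fun i _ => ?_
  rw [map_smul]

lemma star_apply_eb (S : Hs N →L[ℂ] Hs N) (p q : Fin N) :
    (star S (eb q)) p = star ((S (eb p)) q) := by
  rw [← inner_eb_left, ContinuousLinearMap.star_eq_adjoint,
    ContinuousLinearMap.adjoint_inner_right, inner_eb_right]

/-- the map `T ↦ ∑ β(T e_q) β(e_q)^*` -/
def hat (β : Hs N →ₗ[ℂ] A) : (Hs N →L[ℂ] Hs N) →ₗ[ℂ] A where
  toFun T := ∑ q, β (T (eb q)) * star (β (eb q))
  map_add' S T := by
    rw [← Finset.sum_add_distrib]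
    refine Finset.sum_congr rfl fun q _ => ?_
    rw [add_apply, map_add, add_mul]
  map_smul' c T := by
    rw [RingHom.id_apply, Finset.smul_sum]
    refine Finset.sum_congr rfl fun q _ => ?_
    rw [smul_apply, map_smul, smul_mul_assoc]

lemma hat_apply (β : Hs N →ₗ[ℂ] A) (T : Hs N →L[ℂ] Hs N) :
    hat β T = ∑ q, β (T (eb q)) * star (β (eb q)) := rfl

lemma hat_mul_star (β : Hs N →ₗ[ℂ] A) (T S : Hs N →L[ℂ] Hs N) :
    hat β (T * star S) = ∑ q, β (T (eb q)) * star (β (S (eb q))) := by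
  rw [hat_apply]
  have h1 : ∀ q, β ((T * star S) (eb q)) = ∑ h, star ((S (eb h)) q) • β (T (eb h)) := by
    intro q
    have : (T * star S) (eb q) = ∑ h, star ((S (eb h)) q) • T (eb h) := by
      rw [mul_apply_eq_comp]
      conv_lhs => rw [expand (star S (eb q))]
      rw [map_sum]
      refine Finset.sum_congr rfl fun h _ => ?_
      rw [map_smul, star_apply_eb]
    rw [this, map_sum]
    refine Finset.sum_congr rfl fun h _ => ?_
    rw [map_smul]
  have h2 : ∀ h, star (β (S (eb h))) = ∑ q, star ((S (eb h)) q) • star (β (eb q)) := by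
    intro h
    rw [map_expand β (S (eb h)), star_sum]
    refine Finset.sum_congr rfl fun q _ => ?_
    rw [star_smul]
  simp only [h1, h2, Finset.sum_mul, Finset.mul_sum, smul_mul_assoc, mul_smul_comm]
  rw [Finset.sum_comm]

lemma star_hat (β : Hs N →ₗ[ℂ] A) (T : Hs N →L[ℂ] Hs N) : star (hat β T) = hat β (star T) := by
  have h1 := hat_mul_star β T 1
  have h2 := hat_mul_star β 1 T
  rw [star_one, mul_one] at h1
  rw [one_mul] at h2
  rw [h1, h2, star_sum]
  refine Finset.sum_congr rfl fun q _ => ?_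
  rw [star_mul, star_star]

variable [PartialOrder A] [StarOrderedRing A]

lemma hat_nonneg (β : Hs N →ₗ[ℂ] A) {T : Hs N →L[ℂ] Hs N} (hT : 0 ≤ T) : 0 ≤ hat β T := by
  obtain ⟨y, rfl⟩ := CStarAlgebra.nonneg_iff_eq_star_mul_self.1 hT
  have : star y * y = star y * star (star y) := by rw [star_star]
  rw [this, hat_mul_star]
  exact Finset.sum_nonneg fun q _ => mul_star_self_nonneg _

lemma hat_mono (β : Hs N →ₗ[ℂ] A) {S T : Hs N →L[ℂ] Hs N} (h : S ≤ T) : hat β S ≤ hat β T := by
  have := hat_nonneg β (sub_nonneg.2 h)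
  rw [map_sub] at this
  exact sub_nonneg.1 this

omit [PartialOrder A] [StarOrderedRing A] in
/-- compression by a projection in coordinates -/
lemma hat_compress (β : Hs N →ₗ[ℂ] A) (P T : Hs N →L[ℂ] Hs N) :
    hat β (P * T * star P) = ∑ p, ∑ q, (T (eb q)) p • (β (P (eb p)) * star (β (P (eb q)))) := by
  rw [hat_mul_star, Finset.sum_comm]
  refine Finset.sum_congr rfl fun q _ => ?_
  have : β ((P * T) (eb q)) = ∑ p, (T (eb q)) p • β (P (eb p)) := by
    rw [mul_apply_eq_comp]
    conv_lhs => rw [expand (T (eb q))]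
    rw [map_sum, map_sum]
    refine Finset.sum_congr rfl fun p _ => ?_
    rw [map_smul, map_smul]
  rw [this, Finset.sum_mul]
  refine Finset.sum_congr rfl fun p _ => ?_
  rw [smul_mul_assoc]

end Q89.SE
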