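import Mathlib

/-!
# A completely positive inverse of the map `X ↦ (HX + XH)/2`
-/

set_option autoImplicit false

open scoped CStarAlgebra

namespace Q89.SE

variable {A : Type} [CStarAlgebra A] [PartialOrder A] [StarOrderedRing A]

/-- the Cayley transform -/
theorem cayley {H : A} (hH : 1 ≤ H) : ∃ R Q : A, star R = R ∧ star Q = Q ∧ ‖Q‖ < 1 ∧
    ∀ X, R * ((2 : ℝ) • (H * X + X * H)) * R = X - Q * X * Q := by
  have hsa : IsSelfAdjoint H := IsSelfAdjoint.of_ge hH (IsSelfAdjoint.one A)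
  have hsp : ∀ x ∈ spectrum ℝ H, 1 ≤ x := by
    intro x hx
    have h1 : algebraMap ℝ A 1 ≤ H := by rwa [map_one]
    exact (algebraMap_le_iff_le_spectrum (a := H) (r := 1)).1 h1 x hx
  have hc1 : ContinuousOn (fun x : ℝ => (1 + x)⁻¹) (spectrum ℝ H) := by
    refine ContinuousOn.inv₀ (by fun_prop) fun x hx => ?_
    have := hsp x hx
    positivity
  have hc2 : ContinuousOn (fun x : ℝ => (1 - x)) (spectrum ℝ H) := by fun_prop
  have hc3 : ContinuousOn (fun x : ℝ => (1 + x)) (spectrum ℝ H) := by fun_prop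
  set R := cfc (fun x : ℝ => (1 + x)⁻¹) H with hR
  set Q := cfc (fun x : ℝ => (1 - x) * (1 + x)⁻¹) H with hQ
  have e1 : cfc (fun x : ℝ => 1 + x) H = 1 + H := by
    rw [cfc_add H (fun _ : ℝ => (1 : ℝ)) (fun x => x), cfc_const_one ℝ H, cfc_id' ℝ H]
  have e2 : cfc (fun x : ℝ => 1 - x) H = 1 - H := by
    rw [cfc_sub (fun _ : ℝ => (1 : ℝ)) (fun x => x) H, cfc_const_one ℝ H, cfc_id' ℝ H]
  have hQ1 : Q = (1 - H) * R := by
    rw [hQ, cfc_mul _ _ H hc2 hc1, e2]
  have hQ2 : Q = R * (1 - H) := by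
    have : (fun x : ℝ => (1 - x) * (1 + x)⁻¹) = fun x => (1 + x)⁻¹ * (1 - x) := by
      ext x; ring
    rw [hQ, this, cfc_mul _ _ H hc1 hc2, e2]
  have hR1 : (1 + H) * R = 1 := by
    rw [hR, ← e1, ← cfc_mul _ _ H hc3 hc1, ← cfc_const_one ℝ H]
    refine cfc_congr fun x hx => ?_
    have := hsp x hx
    exact mul_inv_cancel₀ (by positivity)
  have hR2 : R * (1 + H) = 1 := by
    rw [hR, ← e1, ← cfc_mul _ _ H hc1 hc3, ← cfc_const_one ℝ H]
    refine cfc_congr fun x hx => ?_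
    have := hsp x hx
    exact inv_mul_cancel₀ (by positivity)
  have hRs : IsSelfAdjoint R := cfc_predicate (R := ℝ) _ _
  have hQs : IsSelfAdjoint Q := cfc_predicate (R := ℝ) _ _
  refine ⟨R, Q, hRs, hQs, ?_, ?_⟩
  · refine norm_cfc_lt one_pos fun x hx => ?_
    have h1 := hsp x hx
    rw [Real.norm_eq_abs, abs_lt]
    have h2 : 0 < 1 + x := by linarith
    constructor
    · rw [← div_eq_mul_inv, lt_div_iff₀ h2]
      linarith
    · rw [← div_eq_mul_inv, div_lt_iff₀ h2]
      linarith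
  · intro X
    have h1 : X - Q * X * Q = R * ((1 + H) * X * (1 + H) - (1 - H) * X * (1 - H)) * R := by
      calc X - Q * X * Q = (R * (1 + H)) * X * ((1 + H) * R) - Q * X * Q := by
            rw [hR1, hR2, one_mul, mul_one]
        _ = (R * (1 + H)) * X * ((1 + H) * R) - (R * (1 - H)) * X * ((1 - H) * R) := by
            rw [← hQ1, ← hQ2]
        _ = _ := by noncomm_ring
    rw [h1]
    congr 2
    rw [two_smul]
    noncomm_ring

/-- the approximate inverse -/
noncomputable def Lam (Q R : A) (n : ℕ) : A →ₗ[ℂ] A where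
  toFun X := ∑ j ∈ Finset.range n, (4 : ℝ) • (Q ^ j * R * X * star (Q ^ j * R))
  map_add' X Y := by
    rw [← Finset.sum_add_distrib]
    refine Finset.sum_congr rfl fun j _ => ?_
    rw [← smul_add, mul_add, add_mul]
  map_smul' c X := by
    rw [RingHom.id_apply, Finset.smul_sum]
    refine Finset.sum_congr rfl fun j _ => ?_
    rw [mul_smul_comm, smul_mul_assoc, smul_comm]

omit [PartialOrder A] [StarOrderedRing A] in
theorem Lam_apply (Q R : A) (n : ℕ) (X : A) :
    Lam Q R n X = ∑ j ∈ Finset.range n, (4 : ℝ) • (Q ^ j * R * X * star (Q ^ j * R)) := rfl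

theorem Lam_nonneg (Q R : A) (n : ℕ) {X : A} (hX : 0 ≤ X) : 0 ≤ Lam Q R n X := by
  rw [Lam_apply]
  exact Finset.sum_nonneg fun j _ => smul_nonneg (by norm_num) (star_right_conjugate_nonneg hX _)

theorem Lam_mono (Q R : A) (n : ℕ) {X Y : A} (h : X ≤ Y) : Lam Q R n X ≤ Lam Q R n Y := by
  have := Lam_nonneg Q R n (sub_nonneg.2 h)
  rw [map_sub] at this
  exact sub_nonneg.1 this

omit [PartialOrder A] [StarOrderedRing A] in
theorem Lam_eq {H Q R : A} (hR : star R = R) (hQ : star Q = Q)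
    (h : ∀ X, R * ((2 : ℝ) • (H * X + X * H)) * R = X - Q * X * Q) (n : ℕ) (X : A) :
    Lam Q R n ((2 : ℝ)⁻¹ • (H * X + X * H)) = X - Q ^ n * X * Q ^ n := by
  rw [Lam_apply]
  induction n with
  | zero => simp
  | succ n ih =>
    rw [Finset.sum_range_succ, ih]
    have h1 : star (Q ^ n * R) = R * Q ^ n := by
      rw [star_mul, star_pow, hR, hQ]
    have h2 : (4 : ℝ) • (Q ^ n * R * ((2 : ℝ)⁻¹ • (H * X + X * H)) * star (Q ^ n * R))
        = Q ^ n * (R * ((2 : ℝ) • (H * X + X * H)) * R) * Q ^ n := by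
      rw [h1]
      simp only [mul_smul_comm, smul_mul_assoc, smul_smul]
      norm_num
      noncomm_ring
    rw [h2, h X]
    have h3 : Q ^ (n + 1) * X * Q ^ (n + 1) = Q ^ n * (Q * X * Q) * Q ^ n := by
      conv_lhs => rw [pow_succ, ← pow_succ, pow_succ, show Q ^ n * Q * X * (Q ^ n * Q)
        = Q ^ n * Q * X * (Q ^ (n + 1)) from by rw [pow_succ], pow_succ']
      noncomm_ring
    rw [h3]
    noncomm_ring

end Q89.SE
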