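import Pool.Agent.Q89.SE.Dat
import Pool.Agent.Q89.SE.Est
import Pool.Agent.Q89.SE.Lya

/-!
# The approximate factorisation
-/

set_option autoImplicit false

open scoped InnerProductSpace ComplexOrder CStarAlgebra

noncomputable section

namespace Q89.SE

open Pool.Agent.W658.Cone

variable {A : Type} [CStarAlgebra A] [PartialOrder A] [StarOrderedRing A]

lemma norm_le_of_two {x : A} {κ : ℝ} (hκ : 0 ≤ κ) (h1 : x ≤ κ • (1 : A)) (h2 : -x ≤ κ • (1 : A)) :
    ‖x‖ ≤ κ := by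
  have hs1 : IsSelfAdjoint (κ • (1 : A)) := by
    rw [IsSelfAdjoint, star_smul, star_one, star_trivial]
  have hs : IsSelfAdjoint x := by
    have := (sub_nonneg.2 h1).isSelfAdjoint
    have h3 := hs1.sub this
    rwa [sub_sub_cancel] at h3
  have e1 : x ≤ algebraMap ℝ A κ := by rwa [Algebra.algebraMap_eq_smul_one]
  have e2 : algebraMap ℝ A (-κ) ≤ x := by
    rw [Algebra.algebraMap_eq_smul_one, neg_smul]
    exact neg_le.1 h2
  have e3 := (le_algebraMap_iff_spectrum_le (a := x) (r := κ)).1 e1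
  have e4 := (algebraMap_le_iff_le_spectrum (a := x) (r := -κ)).1 e2
  have : ‖cfc (fun t : ℝ => t) x‖ ≤ κ := by
    refine norm_cfc_le hκ fun t ht => ?_
    rw [Real.norm_eq_abs, abs_le]
    exact ⟨e4 t ht, e3 t ht⟩
  rwa [cfc_id' ℝ x] at this

/-- the subspaces -/
def Us {N : ℕ} (β : Hs N →ₗ[ℂ] A) (G : ℕ → Submodule ℂ A) : ℕ → Submodule ℂ (Hs N)
  | 0 => ⊥
  | n + 1 => (G n).comap β

omit [PartialOrder A] [StarOrderedRing A] in
lemma Us_mono {N : ℕ} (β : Hs N →ₗ[ℂ] A) {G : ℕ → Submodule ℂ A} (hG : Monotone G) :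
    Monotone (Us β G) := by
  refine monotone_nat_of_le_succ fun n => ?_
  cases n with
  | zero => exact bot_le
  | succ n => exact Submodule.comap_mono (hG (Nat.le_succ n))

lemma one_le_HH {N : ℕ} (β : Hs N →ₗ[ℂ] A) (U : ℕ → Submodule ℂ (Hs N)) (x0 : Hs N)
    (h0 : x0 ∈ U 1) (h1 : β x0 = 1) (h2 : ‖x0‖ = 1) (r : ℝ) (hr : 0 ≤ r) (L : ℕ) (hL : 0 < L) :
    1 ≤ HH β U r L := by
  have k1 : (1 : A) ≤ hh β U 1 := by
    have e1 : hat β ((ℂ ∙ x0).starProjection) = 1 := by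
      rw [hat_apply]
      have : ∀ q, β ((ℂ ∙ x0).starProjection (eb q)) * star (β (eb q))
          = star (x0 q • β (eb q)) := by
        intro q
        rw [Submodule.starProjection_unit_singleton ℂ h2, map_smul, h1, smul_mul_assoc, one_mul,
          inner_eb_right, star_smul]
      simp only [this]
      rw [← star_sum, ← map_expand, h1, star_one]
    rw [← e1, hh]
    refine hat_mono β (Submodule.starProjection_le_starProjection_iff.2 ?_)
    rw [Submodule.span_singleton_le_iff_mem]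
    exact h0
  refine k1.trans ?_
  have : hh β U 1 = r ^ 0 • hh β U (0 + 1) := by rw [pow_zero, one_smul]
  rw [this, HH]
  exact Finset.single_le_sum (f := fun n => r ^ n • hh β U (n + 1))
    (fun n _ => smul_nonneg (pow_nonneg hr n) (hh_nonneg β U _)) (Finset.mem_range.2 hL)

lemma hat_one_le {N : ℕ} (β : Hs N →ₗ[ℂ] A) (C : ℝ) (h : ∀ x, ‖β x‖ ^ 2 ≤ C * ‖x‖ ^ 2) :
    hat β 1 ≤ (N * C) • (1 : A) := by
  have h1 := hat_mul_star β 1 1
  rw [star_one, mul_one] at h1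
  rw [h1]
  have h2 : ∀ q : Fin N, β ((1 : Hs N →L[ℂ] Hs N) (eb q)) * star (β ((1 : Hs N →L[ℂ] Hs N) (eb q)))
      ≤ C • (1 : A) := by
    intro q
    have e1 : ‖β ((1 : Hs N →L[ℂ] Hs N) (eb q))‖ ^ 2 ≤ C := by
      have := h (eb q)
      have e : ‖(eb q : Hs N)‖ = 1 := by simp [eb]
      rw [e, one_pow, mul_one] at this
      exact this
    refine (IsSelfAdjoint.le_algebraMap_norm_self (IsSelfAdjoint.mul_star_self _)).trans ?_
    rw [CStarRing.norm_self_mul_star, ← sq, Algebra.algebraMap_eq_smul_one]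
    exact smul_le_smul_of_nonneg_right e1 zero_le_one
  refine (Finset.sum_le_sum fun q _ => h2 q).trans (le_of_eq ?_)
  rw [Finset.sum_const, Finset.card_univ, Fintype.card_fin, ← Nat.cast_smul_eq_nsmul ℝ, smul_smul]

/-- the Kraus operators -/
def kr {N : ℕ} (β : Hs N →ₗ[ℂ] A) (U : ℕ → Submodule ℂ (Hs N)) (s : ℝ) (L : ℕ) (Q R : A) (m : ℕ)
    (i : Fin (m * L)) (p : Fin N) : A :=
  (2 * s ^ ((finProdFinEquiv.symm i).2 : ℕ)) •
    (Q ^ ((finProdFinEquiv.symm i).1 : ℕ) * R *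
      β (Pj U (((finProdFinEquiv.symm i).2 : ℕ) + 1) (eb p)))

lemma kraus_eq {N : ℕ} (β : Hs N →ₗ[ℂ] A) (U : ℕ → Submodule ℂ (Hs N)) (s : ℝ) (L : ℕ) (Q R : A)
    (m : ℕ) (T : Hs N →L[ℂ] Hs N) :
    kraus (kr β U s L Q R m) (eesh N T) = Lam Q R m (Th β U (s ^ 2) L T) := by
  rw [kraus_apply, Lam_apply, Th_apply]
  have h1 : ∀ (j n : ℕ), (4 : ℝ) • (Q ^ j * R * ((s ^ 2) ^ n • hat β (Pj U (n + 1) * T * star (Pj U (n + 1))))
      * star (Q ^ j * R)) = ∑ p, ∑ q, (T (eb q)) p •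
        (((2 * s ^ n) • (Q ^ j * R * β (Pj U (n + 1) (eb p)))) *
          star ((2 * s ^ n) • (Q ^ j * R * β (Pj U (n + 1) (eb q))))) := by
    intro j n
    rw [hat_compress, Finset.smul_sum, Finset.mul_sum, Finset.sum_mul, Finset.smul_sum]
    refine Finset.sum_congr rfl fun p _ => ?_
    rw [Finset.smul_sum, Finset.mul_sum, Finset.sum_mul, Finset.smul_sum]
    refine Finset.sum_congr rfl fun q _ => ?_
    rw [star_smul, star_trivial (2 * s ^ n), star_mul (Q ^ j * R) (β _), smul_mul_smul_comm]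
    simp only [mul_smul_comm, smul_mul_assoc, smul_smul, mul_assoc]
    rw [smul_comm ((T (eb q)) p)]
    congr 1
    ring
  calc _ = ∑ x : Fin m × Fin L, ∑ p, ∑ q, (T (eb q)) p •
        (((2 * s ^ (x.2 : ℕ)) • (Q ^ (x.1 : ℕ) * R * β (Pj U ((x.2 : ℕ) + 1) (eb p)))) *
          star ((2 * s ^ (x.2 : ℕ)) • (Q ^ (x.1 : ℕ) * R * β (Pj U ((x.2 : ℕ) + 1) (eb q))))) := by
        refine Fintype.sum_equiv finProdFinEquiv.symm _ _ fun i => ?_
        refine Finset.sum_congr rfl fun p _ => Finset.sum_congr rfl fun q _ => ?_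
        rw [eesh_apply]
        rfl
    _ = _ := by
        rw [Fintype.sum_prod_type, Finset.sum_range]
        refine Finset.sum_congr rfl fun j _ => ?_
        rw [Finset.mul_sum, Finset.sum_mul, Finset.smul_sum, Finset.sum_range]
        refine Finset.sum_congr rfl fun n _ => ?_
        rw [h1]

lemma kraus_one {N m : ℕ} (k : Fin m → Fin N → A) :
    kraus k (eesh N 1) = ∑ i, ∑ p, k i p * star (k i p) := by
  rw [kraus_apply]
  refine Finset.sum_congr rfl fun i _ => Finset.sum_congr rfl fun p _ => ?_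
  rw [Finset.sum_eq_single p]
  · rw [eesh_apply]
    simp [eb]
  · intro q _ hq
    rw [eesh_apply]
    simp [eb, Ne.symm hq]
  · intro h
    exact absurd (Finset.mem_univ _) h

theorem step [Nontrivial A] (G : ℕ → Submodule ℂ A) (hG : Monotone G) (hone : (1 : A) ∈ G 0)
    (hmul : ∀ m n : ℕ, ∀ x ∈ G m, ∀ y ∈ G n, x * y ∈ G (m + n)) (L : ℕ) (hL : 0 < L)
    (hfd : FiniteDimensional ℂ (G L)) (s : ℝ) (hs0 : 0 < s) (hs1 : s ≤ 1) (δ : ℝ) (hδ : 0 < δ) :
    ∃ (N : ℕ) (φ : A →ₗ[ℂ] (Hs N →L[ℂ] Hs N)) (ψ : (Hs N →L[ℂ] Hs N) →ₗ[ℂ] A),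
      (∀ (n : ℕ) (y : Matrix (Fin n) (Fin n) A), ∃ z : Matrix (Fin n) (Fin n) (Hs N →L[ℂ] Hs N),
        (y.conjTranspose * y).map φ = z.conjTranspose * z) ∧
      (∀ (n : ℕ) (y : Matrix (Fin n) (Fin n) (Hs N →L[ℂ] Hs N)), ∃ z : Matrix (Fin n) (Fin n) A,
        (y.conjTranspose * y).map ψ = z.conjTranspose * z) ∧
      (∀ a, ‖φ a‖ ≤ ‖a‖) ∧ (∀ b, ‖ψ b‖ ≤ ‖b‖) ∧
      ∀ a ∈ G 1, star a = a → ‖ψ (φ a) - a‖ ≤ ‖a‖ * ((1 - (s ^ 2) ^ 2) / (2 * s ^ 2) +
        4 * (Module.finrank ℂ (G L) : ℝ) ^ 3 * (s ^ 2) ^ L / s ^ 2 + δ) := by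
  set r := s ^ 2 with hr
  have hr0 : 0 < r := by positivity
  have hr1 : r ≤ 1 := by
    rw [hr]
    exact pow_le_one₀ hs0.le hs1
  have h1L : (1 : A) ∈ G L := hG (Nat.zero_le L) hone
  have hpos : 0 < Module.finrank ℂ (G L) := by
    have : Nontrivial (G L) := by
      refine ⟨⟨0, ⟨1, h1L⟩, fun h => ?_⟩⟩
      have := congrArg Subtype.val h
      exact zero_ne_one this
    exact Module.finrank_pos
  obtain ⟨Φ, hΦ, hdom⟩ := dominate (G L) hpos
  set N0 := Module.finrank ℂ (G L) with hN0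
  obtain ⟨N, β, φ, hN, hβE, hsurj, hin, hφin, hφn, hφcp⟩ := dat (G L) hΦ _ hdom
  have hβn : ∀ x, ‖β x‖ ^ 2 ≤ (4 * (N0 : ℝ) ^ 2) * ‖x‖ ^ 2 := by
    intro x
    refine (hdom _ (hβE x)).trans (le_of_eq ?_)
    rw [← hin, ← inner_self_eq_norm_sq (𝕜 := ℂ)]
    rfl
  set U := Us β G with hU
  have hUm : Monotone U := Us_mono β hG
  have hU0 : U 0 = ⊥ := rfl
  -- the weight
  set H := HH β U r L with hH
  have hH1 : 1 ≤ H := by
    obtain ⟨x0, hx0⟩ := hsurj 1 h1L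
    refine one_le_HH β U x0 ?_ hx0 ?_ r hr0.le L hL
    · show β x0 ∈ G 0
      rw [hx0]
      exact hone
    · have h2 := hin x0 x0
      rw [hx0, star_one, one_mul, hΦ.one, inner_self_eq_norm_sq_to_K] at h2
      have h4 : ((‖x0‖ ^ 2 : ℝ) : ℂ) = ((1 : ℝ) : ℂ) := by
        push_cast
        exact h2
      have h3 : ‖x0‖ ^ 2 = 1 := Complex.ofReal_injective h4
      nlinarith [norm_nonneg x0]
  obtain ⟨R, Q, hR, hQ, hQn, hRQ⟩ := cayley hH1
  obtain ⟨m, hm⟩ : ∃ m : ℕ, ‖Q‖ ^ m ≤ δ ∧ ‖Q‖ ^ m ≤ 1 := by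
    obtain ⟨m, hm⟩ := exists_pow_lt_of_lt_one hδ hQn
    exact ⟨m, hm.le, pow_le_one₀ (norm_nonneg _) hQn.le⟩
  have hL1 := Lam_eq hR hQ hRQ m
  have hLH : Lam Q R m H ≤ 1 := by
    have h2 := hL1 1
    rw [mul_one, one_mul, mul_one, ← two_smul ℝ H, smul_smul, inv_mul_cancel₀ two_ne_zero,
      one_smul] at h2
    rw [h2]
    refine sub_le_self _ ?_
    have : Q ^ m * Q ^ m = star (Q ^ m) * Q ^ m := by rw [star_pow, hQ]
    rw [this]
    exact star_mul_self_nonneg _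
  have hLone : Lam Q R m 1 ≤ 1 := (Lam_mono Q R m hH1).trans hLH
  have lr : ∀ (t : ℝ) (x : A), Lam Q R m (t • x) = t • Lam Q R m x := fun t x => by
    have := map_smul (Lam Q R m) (t : ℂ) x
    rwa [Complex.coe_smul, Complex.coe_smul] at this
  let ψ : (Hs N →L[ℂ] Hs N) →ₗ[ℂ] A := (Lam Q R m).comp (Th β U r L)
  have hψ : ∀ T, ψ T = kraus (kr β U s L Q R m) (eesh N T) := fun T =>
    (kraus_eq β U s L Q R m T).symm
  refine ⟨N, φ, ψ, hφcp, fun n y => ?_, hφn, fun T => ?_, fun a ha hsa => ?_⟩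
  · obtain ⟨z, hz⟩ := cp_gen (kraus (kr β U s L Q R m)) (eesh N) (NonUnitalStarAlgHom.id ℂ A) n y
    refine ⟨z, ?_⟩
    rw [← hz]
    congr 1
    funext T
    exact hψ T
  · rw [hψ]
    refine (norm_kraus_le _ ?_ _).trans (norm_eesh_le T)
    rw [← kraus_one, ← hψ]
    have h2 : ψ 1 = Lam Q R m H := by
      show Lam Q R m (Th β U r L 1) = _
      rw [Th_one]
    rw [h2]
    refine (CStarAlgebra.norm_le_one_iff_of_nonneg _ (Lam_nonneg Q R m (zero_le_one.trans hH1))).2 hLH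
  · -- the estimate
    have hherm : ∀ x, Φ (star x) = (starRingEnd ℂ) (Φ x) :=
      Pool.Agent.W658.Irrep.herm Φ hΦ.add hΦ.smul hΦ.pos hΦ.one
    have hfs : star (φ a) = φ a := by
      rw [ContinuousLinearMap.star_eq_adjoint]
      refine ContinuousLinearMap.ext fun x => ext_inner_left ℂ fun v => ?_
      rw [ContinuousLinearMap.adjoint_inner_right, ← inner_conj_symm, hφin, hφin, ← hherm]
      congr 1
      rw [star_mul, star_mul, star_star, hsa, mul_assoc]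
    have hact : ∀ n ≤ L, ∀ x ∈ U n, φ a x ∈ U (n + 1) ∧ β (φ a x) = a * β x := by
      intro n hn x hx
      cases n with
      | zero =>
        have : x = 0 := (Submodule.mem_bot ℂ).1 hx
        rw [this, map_zero, map_zero, mul_zero]
        exact ⟨Submodule.zero_mem _, rfl⟩
      | succ n =>
        have hx' : β x ∈ G n := hx
        have h2 : a * β x ∈ G (1 + n) := hmul 1 n a ha _ hx'
        obtain ⟨u, hu⟩ := hsurj (a * β x) (hG (by omega) h2)
        have h3 : φ a x = u := by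
          refine ext_inner_left ℂ fun v => ?_
          rw [hφin, hin, hu, mul_assoc]
        rw [h3]
        refine ⟨?_, hu⟩
        show β u ∈ G (n + 1)
        rw [hu, add_comm n 1]
        exact h2
    obtain ⟨hest1, hest2⟩ := est β U hU0 hUm L (φ a) hfs a hsa (fun n hn x hx => (hact n hn x hx).1)
      (fun n hn x hx => (hact n hn x hx).2) ‖a‖ (hφn a) r hr0 hr1
    have hhat : hat β 1 ≤ (4 * (N0 : ℝ) ^ 3) • (1 : A) := by
      refine (hat_one_le β _ hβn).trans (smul_le_smul_of_nonneg_right ?_ zero_le_one)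
      have : (N : ℝ) ≤ N0 := by exact_mod_cast hN
      calc (N : ℝ) * (4 * (N0 : ℝ) ^ 2) ≤ N0 * (4 * (N0 : ℝ) ^ 2) :=
            mul_le_mul_of_nonneg_right this (by positivity)
        _ = _ := by ring
    set Z := (2 : ℝ)⁻¹ • (H * a + a * H) - Th β U r L (φ a) with hZ
    have hr2 : 0 ≤ 1 - r ^ 2 := by
      have : r ^ 2 ≤ 1 := pow_le_one₀ hr0.le hr1
      linarith
    have hbd : Lam Q R m ((‖a‖ / 2) • ((1 - r ^ 2) • H + (2 * r ^ L) • hat β 1))
        ≤ (‖a‖ / 2 * ((1 - r ^ 2) + 2 * r ^ L * (4 * (N0 : ℝ) ^ 3))) • (1 : A) := by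
      have e : (‖a‖ / 2 * ((1 - r ^ 2) + 2 * r ^ L * (4 * (N0 : ℝ) ^ 3))) • (1 : A)
          = (‖a‖ / 2) • ((1 - r ^ 2) • (1 : A) + (2 * r ^ L) • ((4 * (N0 : ℝ) ^ 3) • (1 : A))) := by
        module
      rw [lr, map_add, lr, lr, e]
      refine smul_le_smul_of_nonneg_left (add_le_add ?_ ?_) (by positivity)
      · exact smul_le_smul_of_nonneg_left hLH hr2
      · refine smul_le_smul_of_nonneg_left ?_ (by positivity)
        refine (Lam_mono Q R m hhat).trans ?_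
        rw [lr]
        exact smul_le_smul_of_nonneg_left hLone (by positivity)
    have hZ1 : Lam Q R m (r • Z) ≤ (‖a‖ / 2 * ((1 - r ^ 2) + 2 * r ^ L * (4 * (N0 : ℝ) ^ 3))) • (1 : A) :=
      (Lam_mono Q R m hest1).trans hbd
    have hZ2 : -Lam Q R m (r • Z) ≤ (‖a‖ / 2 * ((1 - r ^ 2) + 2 * r ^ L * (4 * (N0 : ℝ) ^ 3))) • (1 : A) := by
      rw [← map_neg]
      exact (Lam_mono Q R m hest2).trans hbd
    have hZ3 := norm_le_of_two (by positivity) hZ1 hZ2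
    rw [lr, norm_smul, Real.norm_of_nonneg hr0.le] at hZ3
    have hfin : ψ (φ a) - a = -(Q ^ m * a * Q ^ m) - Lam Q R m Z := by
      rw [hZ, map_sub, hL1 a]
      show Lam Q R m (Th β U r L (φ a)) - a = _
      abel
    rw [hfin]
    refine (norm_sub_le _ _).trans ?_
    have h5 : ‖-(Q ^ m * a * Q ^ m)‖ ≤ ‖a‖ * δ := by
      rw [norm_neg]
      have h6 : ‖Q ^ m‖ ≤ ‖Q‖ ^ m := norm_pow_le Q m
      calc ‖Q ^ m * a * Q ^ m‖ ≤ ‖Q ^ m‖ * ‖a‖ * ‖Q ^ m‖ :=
            (norm_mul_le _ _).trans (mul_le_mul_of_nonneg_right (norm_mul_le _ _) (norm_nonneg _))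
        _ ≤ 1 * ‖a‖ * δ := by
            refine mul_le_mul (mul_le_mul_of_nonneg_right (h6.trans hm.2) (norm_nonneg _))
              (h6.trans hm.1) (norm_nonneg _) (by positivity)
        _ = _ := by ring
    have h7 : ‖Lam Q R m Z‖ ≤ ‖a‖ * ((1 - r ^ 2) / (2 * r) + 4 * (N0 : ℝ) ^ 3 * r ^ L / r) := by
      rw [← mul_le_mul_iff_right₀ hr0]
      refine hZ3.trans (le_of_eq ?_)
      field_simp
    calc ‖-(Q ^ m * a * Q ^ m)‖ + ‖Lam Q R m Z‖
        ≤ ‖a‖ * δ + ‖a‖ * ((1 - r ^ 2) / (2 * r) + 4 * (N0 : ℝ) ^ 3 * r ^ L / r) := add_le_add h5 h7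
      _ = _ := by ring

end Q89.SE
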